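import Pool.Agent.TH639.SN.Proj

/-!
Products over the closed points of affine and projective space for several polynomials and
characters.
-/

set_option autoImplicit false
set_option maxHeartbeats 1000000

open PowerSeries

namespace Pool.Agent.TH639.SX

open Pool.Agent.TH639.SN

section defs

variable {k A ι : Type} [Field k] [CommRing A] [Fintype ι]

/-- The product over the closed points `z` of affine space of dimension `m` of the factors
`1 - (∏ i, ψ i (N G i (z))) * T ^ (deg z)`. -/
noncomputable def multiAff (ψ : ι → MulChar k A) (m : ℕ) (G : ι → MvPolynomial (Fin m) k) :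
    PowerSeries A :=
  eulerProduct (fun z : SpacePt m k => deg m k z)
    (fun z => 1 - PowerSeries.C (∏ i, ψ i (normValue m k (G i) z)) * PowerSeries.X ^ deg m k z)

/-- The product over the closed points `z` of projective space of dimension `m` of the factors
`1 - (∏ i, ψ i (N F i (z))) * T ^ (deg z)`, for forms `F i` of degree `d i` such that the product of
the `ψ i ^ (d i)` is trivial. -/
noncomputable def multiProj (ψ : ι → MulChar k A) (m : ℕ) (F : ι → MvPolynomial (Fin (m + 1)) k) :
    PowerSeries A :=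
  ∏ j ∈ Finset.range (m + 1), multiAff ψ j (fun i => chart j (F i))

omit [Fintype ι] in
/-- The number of the polynomials `G i` which vanish at the closed point `z`. -/
noncomputable def zeroCount (m : ℕ) (G : ι → MvPolynomial (Fin m) k) (z : SpacePt m k) : ℕ :=
  Nat.card {i : ι // normValue m k (G i) z = 0}

omit [Fintype ι] in
/-- The sum over the closed points `z` of affine space at which `n ≥ 2` of the polynomials `G i`
vanish of `n - 1` times the greatest power of `ℓ` dividing the degree of `z`. -/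
noncomputable def crossAff (ℓ m : ℕ) (G : ι → MvPolynomial (Fin m) k) : ℕ :=
  ∑ᶠ z : SpacePt m k, (zeroCount m G z - 1) * ℓ ^ padicValNat ℓ (deg m k z)

omit [Fintype ι] in
/-- The sum over the closed points `z` of projective space at which `n ≥ 2` of the forms `F i` vanish
of `n - 1` times the greatest power of `ℓ` dividing the degree of `z`. -/
noncomputable def crossings (ℓ m : ℕ) (F : ι → MvPolynomial (Fin (m + 1)) k) : ℕ :=
  ∑ j ∈ Finset.range (m + 1), crossAff ℓ j (fun i => chart j (F i))

omit [Fintype ι] in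
/-- Only finitely many closed points of projective space are zeros of two of the forms. -/
def FiniteCrossings (m : ℕ) (F : ι → MvPolynomial (Fin (m + 1)) k) : Prop :=
  ∀ j ∈ Finset.range (m + 1), {z : SpacePt j k | 2 ≤ zeroCount j (fun i => chart j (F i)) z}.Finite

end defs

open Pool.Agent.W313.Hyp Pool.Agent.W343.BSD
open Pool.Agent.TH639.SC
open Pool.Agent.TH639.SG (eq_one_of_pow red_char' muL muL_eq muL_eq_zero)

theorem order_le {R : Type} [Field R] {ℓ : ℕ} [hp : Fact ℓ.Prime] [CharP R ℓ]
    {U V : PowerSeries R} {a b : ℕ} (hU : IsMu U a) (hV : IsMu V b) {s : ℕ} {H : Polynomial R}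
    (h : U * (((1 - Polynomial.X) ^ s * H : Polynomial R) : PowerSeries R) = V) : s + a ≤ b := by
  obtain ⟨P, rfl, hP, rfl⟩ := hU
  obtain ⟨Q, rfl, hQ, rfl⟩ := hV
  rw [← Polynomial.coe_mul] at h
  have h1 := Polynomial.coe_injective R h
  obtain ⟨hX, hXm⟩ := rm_zf (R := R) (ℓ := ℓ) one_pos
  rw [pow_one, padicValNat_one_right, pow_zero] at hXm
  rw [pow_one] at hX
  have hne : (1 - Polynomial.X) ^ s * H ≠ 0 := by
    intro h0
    rw [h0, mul_zero] at h1
    exact hQ h1.symm
  rw [← h1, rm_mul 1 hP hne, rm_mul 1 (left_ne_zero_of_mul hne) (right_ne_zero_of_mul hne),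
    rm_pow 1 hX, hXm]
  omega

section red

variable {k : Type} [Field k] [Finite k] {A : Type} [CommRing A] {R : Type} [Field R] {m : ℕ}
  {ι : Type} [Fintype ι]

omit [Finite k] in
theorem zeroCount_eq_zero {G : ι → MvPolynomial (Fin m) k} {z : SpacePt m k} :
    zeroCount m G z = 0 ↔ ∀ i, normValue m k (G i) z ≠ 0 := by
  unfold zeroCount
  rw [Nat.card_eq_zero, or_iff_left (not_infinite_iff_finite.2 inferInstance), isEmpty_subtype]

open Classical in
theorem red_multi (ρ : A →+* R) {ψ : ι → MulChar k A} (hρ : ∀ i, ∀ u : k, u ≠ 0 → ρ (ψ i u) = 1)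
    (G : ι → MvPolynomial (Fin m) k) : PowerSeries.map ρ (multiAff ψ m G) =
      eulerProd (fun z : SpacePt m k => deg m k z)
        (fun z => if zeroCount m G z = 0 then 1 - X ^ deg m k z else 1) := by
  show PowerSeries.map ρ (eulerProd _ _) = _
  rw [map_eulerProd (finite_le m k)]
  congr 1
  funext z
  rw [map_sub, map_one, map_mul, PowerSeries.map_C, map_pow, PowerSeries.map_X, map_prod]
  split_ifs with h
  · rw [zeroCount_eq_zero] at h
    rw [Finset.prod_eq_one fun i _ => hρ i _ (h i), PowerSeries.C.map_one, one_mul]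
  · rw [zeroCount_eq_zero] at h
    push Not at h
    obtain ⟨i, hi⟩ := h
    rw [Finset.prod_eq_zero (Finset.mem_univ i) (by rw [hi, MulChar.map_zero, map_zero]),
      map_zero, zero_mul, sub_zero]

open Classical in
/-- **the identity modulo a prime over `ℓ`** -/
theorem identityM (ρ : A →+* R) {ψ : ι → MulChar k A}
    (hρ : ∀ i, ∀ u : k, u ≠ 0 → ρ (ψ i u) = 1) (hq : ((Nat.card k : ℕ) : R) = 1)
    (G : ι → MvPolynomial (Fin m) k) (S : Finset (SpacePt m k))
    (hS : ∀ z, 2 ≤ zeroCount m G z → z ∈ S) :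
    PowerSeries.map ρ (multiAff ψ m G) *
      ∏ i, PowerSeries.map (Int.castRingHom R) (zetaInv m (G i)) =
      (1 - X) * ∏ z ∈ S, (1 - X ^ deg m k z) ^ (zeroCount m G z - 1) := by
  have hdvd : ∀ (z : SpacePt m k) (n : ℕ), (X : PowerSeries R) ^ deg m k z ∣
      (1 - X ^ deg m k z) ^ n - 1 := fun z n => pow_one_mod (one_sub_mod le_rfl) n
  have hprod : ∏ i, PowerSeries.map (Int.castRingHom R) (zetaInv m (G i)) =
      eulerProd (fun z : SpacePt m k => deg m k z)
        (fun z => (1 - X ^ deg m k z : PowerSeries R) ^ zeroCount m G z) := by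
    simp only [red_zi]
    rw [← eulerProd_prod (finite_le m k)]
    · congr 1
      funext z
      rw [Finset.prod_ite, Finset.prod_const_one, mul_one, Finset.prod_const]
      congr 1
      unfold zeroCount
      rw [Nat.card_eq_fintype_card, Fintype.card_subtype]
    · intro i z
      split_ifs with h
      · exact one_sub_mod le_rfl
      · rw [sub_self]; exact dvd_zero _
  have hfin : ∏ z ∈ S, (1 - X ^ deg m k z : PowerSeries R) ^ (zeroCount m G z - 1) =
      eulerProd (fun z : SpacePt m k => deg m k z)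
        (fun z => (1 - X ^ deg m k z : PowerSeries R) ^ (zeroCount m G z - 1)) := by
    symm
    apply eulerProd_of_finset (finite_le m k) (fun z => hdvd z _)
    intro z hz
    have h1 : zeroCount m G z - 1 = 0 := by
      have : ¬ 2 ≤ zeroCount m G z := fun h => hz (hS z h)
      omega
    rw [h1, pow_zero]
  have h1 := zeta_space (R := R) m k hq 1 one_pos
  simp only [one_mul, pow_one] at h1
  rw [red_multi ρ hρ, hprod, hfin, ← h1, ← eulerProd_mul (finite_le m k),
    ← eulerProd_mul (finite_le m k)]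
  · congr 1
    funext z
    split_ifs with h
    · rw [h, pow_zero]
    · rw [one_mul, ← pow_succ', Nat.sub_add_cancel (Nat.one_le_iff_ne_zero.2 h)]
  · exact fun z => one_sub_mod le_rfl
  · exact fun z => hdvd z _
  · intro z
    split_ifs with h
    · exact one_sub_mod le_rfl
    · rw [sub_self]; exact dvd_zero _
  · exact fun z => hdvd z _

end red

section final

variable {k : Type} [Field k] [Finite k] {A : Type} [CommRing A] [CharZero A]
  [Algebra.IsIntegral ℤ A] {ℓ : ℕ} {ι : Type} [Fintype ι]

/-- **the bound** -/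
theorem bound_multi (hℓ : ℓ.Prime) (hd : ℓ ∣ Nat.card k - 1) {ψ : ι → MulChar k A}
    (hψ : ∀ i, ∃ a : ℕ, ψ i ^ (ℓ ^ a) = 1) (m : ℕ) (F : ι → MvPolynomial (Fin (m + 1)) k)
    (hF : FiniteCrossings m F) {L : ι → Polynomial ℤ}
    (hL : ∀ i, projZetaInv m (F i) * (L i : PowerSeries ℤ) =
      ((∏ e ∈ Finset.range m, (1 - Polynomial.C ((Nat.card k : ℤ) ^ e) * Polynomial.X) :
        Polynomial ℤ) : PowerSeries ℤ))
    {κ : Type} (Z : Finset κ) (α : κ → A)
    (hZ : ∀ z ∈ Z, ∃ c j : ℕ, α z ^ (ℓ ^ j) = (Nat.card k : A) ^ c) (r : κ → ℕ)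
    (H : Polynomial A)
    (hH : multiProj ψ m F =
      (((∏ z ∈ Z, (1 - Polynomial.C (α z) * Polynomial.X) ^ r z) * H : Polynomial A) :
        PowerSeries A)) :
    ∑ z ∈ Z, r z + Fintype.card ι * m ≤ (m + 1) + ∑ i, muL ℓ (L i) + crossings ℓ m F := by
  classical
  have hFp : Fact ℓ.Prime := ⟨hℓ⟩
  obtain ⟨R, _, _, ρ, hq⟩ := exists_hom (A := A) hℓ hd
  have hone : (1 - X : PowerSeries R) ≠ 0 := by
    have := one_sub_ne (R := R) one_pos
    rwa [pow_one] at this
  have hρ : ∀ i, ∀ u : k, u ≠ 0 → ρ (ψ i u) = 1 := fun i u hu => by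
    obtain ⟨a, ha⟩ := hψ i
    exact red_char' ρ ha hu
  -- the crossings
  have hex : ∀ j, ∃ S : Finset (SpacePt j k), j ∈ Finset.range (m + 1) →
      ∀ z, 2 ≤ zeroCount j (fun i => chart j (F i)) z → z ∈ S := by
    intro j
    by_cases hj : j ∈ Finset.range (m + 1)
    · exact ⟨(hF j hj).toFinset, fun _ z hz => (hF j hj).mem_toFinset.2 hz⟩
    · exact ⟨∅, fun h => absurd h hj⟩
  choose S hS using hex
  have h1 : PowerSeries.map ρ (multiProj ψ m F) *
      ∏ i, PowerSeries.map (Int.castRingHom R) (projZetaInv m (F i)) =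
      (1 - X) ^ (m + 1) * ∏ j ∈ Finset.range (m + 1), ∏ z ∈ S j,
        (1 - X ^ deg j k z) ^ (zeroCount j (fun i => chart j (F i)) z - 1) := by
    unfold multiProj projZetaInv
    simp only [map_prod]
    rw [Finset.prod_comm, ← Finset.prod_mul_distrib,
      Finset.prod_congr rfl (fun j hj => identityM ρ hρ hq (fun i => chart j (F i)) (S j)
        (hS j hj)), Finset.prod_mul_distrib, Finset.prod_const, Finset.card_range]
  have h2 : ∀ i, PowerSeries.map (Int.castRingHom R) (projZetaInv m (F i)) *
      (((L i).map (Int.castRingHom R) : Polynomial R) : PowerSeries R) = (1 - X) ^ m := by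
    intro i
    have h3 := congrArg (PowerSeries.map (Int.castRingHom R)) (hL i)
    rw [map_mul, ← Polynomial.polynomial_map_coe, ← Polynomial.polynomial_map_coe] at h3
    rw [h3, Polynomial.map_prod]
    have h4 : ∀ e ∈ Finset.range m, (1 - Polynomial.C ((Nat.card k : ℤ) ^ e) * Polynomial.X :
        Polynomial ℤ).map (Int.castRingHom R) = 1 - Polynomial.X := by
      intro e _
      rw [Polynomial.map_sub, Polynomial.map_one, Polynomial.map_mul, Polynomial.map_C,
        Polynomial.map_X, map_pow, eq_intCast, Int.cast_natCast, hq, one_pow, Polynomial.C_1,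
        one_mul]
    rw [Finset.prod_congr rfl h4, Finset.prod_const, Finset.card_range, Polynomial.coe_pow,
      Polynomial.coe_sub, Polynomial.coe_one, Polynomial.coe_X]
  have hL0 : ∀ i, (L i).map (Int.castRingHom R) ≠ 0 := by
    intro i h
    have h3 := h2 i
    rw [h, Polynomial.coe_zero, mul_zero] at h3
    exact pow_ne_zero _ hone h3.symm
  have h5 : (1 - X) ^ (Fintype.card ι * m) * PowerSeries.map ρ (multiProj ψ m F) =
      (1 - X) ^ (m + 1) * (∏ j ∈ Finset.range (m + 1), ∏ z ∈ S j,
        (1 - X ^ deg j k z) ^ (zeroCount j (fun i => chart j (F i)) z - 1)) *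
        ∏ i, (((L i).map (Int.castRingHom R) : Polynomial R) : PowerSeries R) := by
    rw [← h1, mul_assoc, ← Finset.prod_mul_distrib, Finset.prod_congr rfl (fun i _ => h2 i),
      Finset.prod_const, Finset.card_univ, ← pow_mul, mul_comm m, mul_comm]
  have h6 : ∀ z ∈ Z, ((1 - Polynomial.C (α z) * Polynomial.X) ^ r z).map ρ =
      (1 - Polynomial.X) ^ r z := by
    intro z hz
    obtain ⟨c, j, hj⟩ := hZ z hz
    have h7 : ρ (α z) = 1 := by
      apply eq_one_of_pow (ℓ := ℓ) (m := j)
      rw [← map_pow, hj, map_pow, map_natCast, hq, one_pow]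
    rw [Polynomial.map_pow, Polynomial.map_sub, Polynomial.map_one, Polynomial.map_mul,
      Polynomial.map_C, Polynomial.map_X, h7, Polynomial.C_1, one_mul]
  have hred : PowerSeries.map ρ (multiProj ψ m F) =
      (((1 - Polynomial.X) ^ (∑ z ∈ Z, r z) * H.map ρ : Polynomial R) : PowerSeries R) := by
    rw [hH, ← Polynomial.polynomial_map_coe, Polynomial.map_mul, Polynomial.map_prod,
      Finset.prod_congr rfl h6, Finset.prod_pow_eq_pow_sum]
  have hU : IsMu ((1 - X) ^ (Fintype.card ι * m) : PowerSeries R) (Fintype.card ι * m) := by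
    have := (IsMu.oneX (R := R) (ℓ := ℓ)).pow (Fintype.card ι * m)
    rwa [mul_one] at this
  have hC : IsMu (∏ j ∈ Finset.range (m + 1), ∏ z ∈ S j,
        (1 - X ^ deg j k z) ^ (zeroCount j (fun i => chart j (F i)) z - 1) : PowerSeries R)
      (∑ j ∈ Finset.range (m + 1), ∑ z ∈ S j,
        (zeroCount j (fun i => chart j (F i)) z - 1) * ℓ ^ padicValNat ℓ (deg j k z)) :=
    IsMu.prod _ fun j _ => IsMu.prod _ fun z _ => (IsMu.zf (deg_pos j k z)).pow _
  have hcr : ∑ j ∈ Finset.range (m + 1), ∑ z ∈ S j,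
        (zeroCount j (fun i => chart j (F i)) z - 1) * ℓ ^ padicValNat ℓ (deg j k z) =
      crossings ℓ m F := by
    unfold crossings crossAff
    refine Finset.sum_congr rfl fun j hj => ?_
    symm
    apply finsum_eq_sum_of_support_subset
    intro z hz
    rw [Function.mem_support] at hz
    have h8 : zeroCount j (fun i => chart j (F i)) z - 1 ≠ 0 := left_ne_zero_of_mul hz
    exact hS j hj z (by omega)
  have hV : IsMu ((1 - X) ^ (m + 1) * (∏ j ∈ Finset.range (m + 1), ∏ z ∈ S j,
        (1 - X ^ deg j k z) ^ (zeroCount j (fun i => chart j (F i)) z - 1)) *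
        ∏ i, (((L i).map (Int.castRingHom R) : Polynomial R) : PowerSeries R))
      ((m + 1) + crossings ℓ m F + ∑ i, muL ℓ (L i)) := by
    have h9 : IsMu ((1 - X) ^ (m + 1) : PowerSeries R) (m + 1) := by
      have := (IsMu.oneX (R := R) (ℓ := ℓ)).pow (m + 1)
      rwa [mul_one] at this
    exact (h9.mul (hcr ▸ hC)).mul (IsMu.prod _ fun i _ => ⟨_, rfl, hL0 i, muL_eq (L i)⟩)
  have h10 := order_le (ℓ := ℓ) hU hV (s := ∑ z ∈ Z, r z) (H := H.map ρ) (by
    rw [← hred, h5])
  omega

end final

end Pool.Agent.TH639.SX
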