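import Pool.Agent.TH639.SX.Arr

/-!
Several polynomials and characters, and the zeta functions of the intersections of the hypersurfaces.
-/

set_option autoImplicit false
set_option maxHeartbeats 1000000

open PowerSeries

namespace Pool.Agent.TH639.SX

open Pool.Agent.TH639.SN

section defs

variable {k ι : Type} [Field k]

/-- The inverse of the zeta function of the intersection of the affine hypersurfaces `G i = 0`, for
`i` in `T`. -/
noncomputable def interAff (m : ℕ) (G : ι → MvPolynomial (Fin m) k) (T : Finset ι) :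
    PowerSeries ℤ :=
  eulerProduct (fun z : {z : SpacePt m k // ∀ i ∈ T, normValue m k (G i) z = 0} => deg m k z.1)
    (fun z => 1 - PowerSeries.X ^ deg m k z.1)

/-- The inverse of the zeta function of the intersection of the projective hypersurfaces `F i = 0`,
for `i` in `T`. -/
noncomputable def interProj (m : ℕ) (F : ι → MvPolynomial (Fin (m + 1)) k) (T : Finset ι) :
    PowerSeries ℤ :=
  ∏ j ∈ Finset.range (m + 1), interAff j (fun i => chart j (F i)) T

end defs

open Pool.Agent.W313.Hyp Pool.Agent.W343.BSD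
open Pool.Agent.TH639.SC
open Pool.Agent.TH639.SG (eq_one_of_pow red_char' muL muL_eq muL_eq_zero)

section comb

variable {ι : Type} [DecidableEq ι]

omit [DecidableEq ι] in
/-- even and odd subsets -/
theorem even_odd (V : Finset ι) (g : Finset ι → ℤ) :
    ∑ T ∈ V.powerset, (-1 : ℤ) ^ T.card * g T =
      ∑ T ∈ V.powerset.filter (fun T => Even T.card), g T -
        ∑ T ∈ V.powerset.filter (fun T => ¬ Even T.card), g T := by
  rw [← Finset.sum_filter_add_sum_filter_not V.powerset (fun T => Even T.card), sub_eq_add_neg]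
  congr 1
  · refine Finset.sum_congr rfl fun T hT => ?_
    rw [(Finset.mem_filter.1 hT).2.neg_one_pow, one_mul]
  · rw [← Finset.sum_neg_distrib]
    refine Finset.sum_congr rfl fun T hT => ?_
    rw [(Nat.not_even_iff_odd.1 (Finset.mem_filter.1 hT).2).neg_one_pow, neg_one_mul]

theorem alt_card (a : ℤ) {S : Finset ι} {x : ι} (hx : x ∉ S) :
    ∑ T ∈ (insert x S).powerset, (-1 : ℤ) ^ T.card * (a - T.card) = if S = ∅ then 1 else 0 := by
  rw [Finset.sum_powerset_insert hx, ← Finset.sum_add_distrib]
  have h : ∀ T ∈ S.powerset, (-1 : ℤ) ^ T.card * (a - T.card) +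
      (-1 : ℤ) ^ (insert x T).card * (a - (insert x T).card) = (-1 : ℤ) ^ T.card := by
    intro T hT
    rw [Finset.card_insert_of_notMem fun h => hx (Finset.mem_powerset.1 hT h), pow_succ]
    push_cast
    ring
  rw [Finset.sum_congr rfl h, Finset.sum_powerset_neg_one_pow_card]

end comb

section red

variable {k : Type} [Field k] [Finite k] {A : Type} [CommRing A] {R : Type} [Field R] {m : ℕ}
  {ι : Type} [Fintype ι] [DecidableEq ι]

/-- The set of the indices of the polynomials vanishing at `z`. -/
noncomputable def van (m : ℕ) (G : ι → MvPolynomial (Fin m) k) (z : SpacePt m k) : Finset ι :=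
  (Set.toFinite {i | normValue m k (G i) z = 0}).toFinset

omit [Finite k] [DecidableEq ι] in
theorem mem_van {G : ι → MvPolynomial (Fin m) k} {z : SpacePt m k} {i : ι} :
    i ∈ van m G z ↔ normValue m k (G i) z = 0 := by
  unfold van
  rw [Set.Finite.mem_toFinset, Set.mem_ofPred_eq]

omit [Finite k] [DecidableEq ι] in
theorem subset_van {G : ι → MvPolynomial (Fin m) k} {z : SpacePt m k} {T : Finset ι} :
    T ⊆ van m G z ↔ ∀ i ∈ T, normValue m k (G i) z = 0 :=
  ⟨fun h _ hi => mem_van.1 (h hi), fun h i hi => mem_van.2 (h i hi)⟩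

omit [DecidableEq ι] in
theorem red_inter (G : ι → MvPolynomial (Fin m) k) (T : Finset ι)
    [∀ z, Decidable (T ⊆ van m G z)] :
    PowerSeries.map (Int.castRingHom R) (interAff m G T) =
      eulerProd (fun z : SpacePt m k => deg m k z)
        (fun z => if T ⊆ van m G z then 1 - X ^ deg m k z else 1) := by
  classical
  have h1 : interAff m G T = eulerProd (fun z : SpacePt m k => deg m k z)
      (fun z => if ∀ i ∈ T, normValue m k (G i) z = 0 then 1 - X ^ deg m k z else 1) :=
    eulerProd_subtype (fun z : SpacePt m k => ∀ i ∈ T, normValue m k (G i) z = 0)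
      (finite_le m k) (f := fun z => (1 - X ^ deg m k z : PowerSeries ℤ))
      (fun z _ => one_sub_mod le_rfl)
  rw [h1, map_eulerProd (finite_le m k)]
  congr 1
  funext z
  by_cases h : ∀ i ∈ T, normValue m k (G i) z = 0
  · rw [if_pos h, if_pos (subset_van.2 h), map_sub, map_one, map_pow, PowerSeries.map_X]
  · rw [if_neg h, if_neg (fun h' => h (subset_van.1 h')), map_one]

/-- **the identity modulo a prime over `ℓ`** -/
theorem identityI (ρ : A →+* R) {ψ : ι → MulChar k A}
    (hρ : ∀ i, ∀ u : k, u ≠ 0 → ρ (ψ i u) = 1) (G : ι → MvPolynomial (Fin m) k) :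
    PowerSeries.map ρ (multiAff ψ m G) *
      ∏ T ∈ (Finset.univ : Finset ι).powerset.filter (fun T => ¬ Even T.card),
        PowerSeries.map (Int.castRingHom R) (interAff m G T) =
      ∏ T ∈ (Finset.univ : Finset ι).powerset.filter (fun T => Even T.card),
        PowerSeries.map (Int.castRingHom R) (interAff m G T) := by
  classical
  have hdvd : ∀ (z : SpacePt m k) (n : ℕ), (X : PowerSeries R) ^ deg m k z ∣
      (1 - X ^ deg m k z) ^ n - 1 := fun z n => pow_one_mod (one_sub_mod le_rfl) n
  have hprod : ∀ s : Finset (Finset ι), ∏ T ∈ s,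
      PowerSeries.map (Int.castRingHom R) (interAff m G T) =
      eulerProd (fun z : SpacePt m k => deg m k z)
        (fun z => (1 - X ^ deg m k z : PowerSeries R) ^
          (s.filter fun T => T ⊆ van m G z).card) := by
    intro s
    rw [Finset.prod_congr rfl (fun T _ => red_inter (R := R) G T), ← eulerProd_prod (finite_le m k)]
    · congr 1
      funext z
      rw [Finset.prod_ite, Finset.prod_const_one, mul_one, Finset.prod_const]
    · intro T z
      split_ifs with h
      · exact one_sub_mod le_rfl
      · rw [sub_self]; exact dvd_zero _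
  rw [red_multi ρ hρ, hprod, hprod, ← eulerProd_mul (finite_le m k)]
  · congr 1
    funext z
    have h1 := even_odd (van m G z) (fun _ => 1)
    simp only [mul_one, Finset.sum_const, nsmul_eq_mul] at h1
    rw [Finset.sum_powerset_neg_one_pow_card] at h1
    have h2 : ∀ p : Finset ι → Prop, ∀ _ : DecidablePred p,
        ((Finset.univ : Finset ι).powerset.filter p).filter (fun T => T ⊆ van m G z) =
          (van m G z).powerset.filter p := by
      intro p _
      ext T
      simp only [Finset.mem_filter, Finset.mem_powerset, Finset.subset_univ, true_and]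
      exact and_comm
    rw [h2, h2]
    have h3 : van m G z = ∅ ↔ zeroCount m G z = 0 := by
      rw [zeroCount_eq_zero, Finset.eq_empty_iff_forall_notMem]
      exact forall_congr' fun i => not_congr mem_van
    by_cases h : zeroCount m G z = 0
    · rw [if_pos (h3.2 h)] at h1
      rw [if_pos h, ← pow_succ']
      congr 1
      omega
    · rw [if_neg (fun h' => h (h3.1 h'))] at h1
      rw [if_neg h, one_mul]
      congr 1
      omega
  · intro z
    split_ifs with h
    · exact one_sub_mod le_rfl
    · rw [sub_self]; exact dvd_zero _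
  · exact fun z => hdvd z _

omit [DecidableEq ι] in
theorem red_empty (hq : ((Nat.card k : ℕ) : R) = 1) (G : ι → MvPolynomial (Fin m) k) :
    PowerSeries.map (Int.castRingHom R) (interAff m G ∅) = 1 - X := by
  classical
  rw [red_inter]
  have h1 := zeta_space (R := R) m k hq 1 one_pos
  simp only [one_mul, pow_one] at h1
  rw [← h1]
  simp only [Finset.empty_subset, if_true]

end red

section single

variable {k : Type} [Field k] [Finite k] {ι : Type}

theorem inter_single (m : ℕ) (F : ι → MvPolynomial (Fin (m + 1)) k) (i : ι) :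
    interProj m F {i} = projZetaInv m (F i) := by
  classical
  unfold interProj projZetaInv
  refine Finset.prod_congr rfl fun j _ => ?_
  have h1 : interAff j (fun i => chart j (F i)) {i} = eulerProd (fun z : SpacePt j k => deg j k z)
      (fun z => if ∀ i' ∈ ({i} : Finset ι), normValue j k (chart j (F i')) z = 0 then
        1 - X ^ deg j k z else 1) :=
    eulerProd_subtype (fun z : SpacePt j k => ∀ i' ∈ ({i} : Finset ι),
        normValue j k (chart j (F i')) z = 0)
      (finite_le j k) (f := fun z => (1 - X ^ deg j k z : PowerSeries ℤ))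
      (fun z _ => one_sub_mod le_rfl)
  have h2 : zetaInv j (chart j (F i)) = eulerProd (fun z : SpacePt j k => deg j k z)
      (fun z => if normValue j k (chart j (F i)) z = 0 then 1 - X ^ deg j k z else 1) :=
    eulerProd_subtype (fun z : SpacePt j k => normValue j k (chart j (F i)) z = 0) (finite_le j k)
      (f := fun z => (1 - X ^ deg j k z : PowerSeries ℤ)) (fun z _ => one_sub_mod le_rfl)
  rw [h1, h2]
  congr 1
  funext z
  simp only [Finset.mem_singleton, forall_eq]

end single

section final

variable {k : Type} [Field k] [Finite k] {A : Type} [CommRing A] [CharZero A]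
  [Algebra.IsIntegral ℤ A] {ℓ : ℕ} {ι : Type} [Fintype ι] [DecidableEq ι]

/-- The product of the `1 - q ^ e T` for `e < n`. -/
noncomputable def tate (q n : ℕ) : Polynomial ℤ :=
  ∏ e ∈ Finset.range n, (1 - Polynomial.C ((q : ℤ) ^ e) * Polynomial.X)

theorem tate_mod {R : Type} [Field R] {q : ℕ} (hq : (q : R) = 1) (n : ℕ) :
    PowerSeries.map (Int.castRingHom R) (tate q n : PowerSeries ℤ) = (1 - X) ^ n := by
  unfold tate
  rw [← Polynomial.polynomial_map_coe, Polynomial.map_prod]
  have h4 : ∀ e ∈ Finset.range n, (1 - Polynomial.C ((q : ℤ) ^ e) * Polynomial.X :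
      Polynomial ℤ).map (Int.castRingHom R) = 1 - Polynomial.X := by
    intro e _
    rw [Polynomial.map_sub, Polynomial.map_one, Polynomial.map_mul, Polynomial.map_C,
      Polynomial.map_X, map_pow, eq_intCast, Int.cast_natCast, hq, one_pow, Polynomial.C_1,
      one_mul]
  rw [Finset.prod_congr rfl h4, Finset.prod_const, Finset.card_range, Polynomial.coe_pow,
    Polynomial.coe_sub, Polynomial.coe_one, Polynomial.coe_X]

/-- **the bound** -/
theorem bound_inter [Nonempty ι] (hℓ : ℓ.Prime) (hd : ℓ ∣ Nat.card k - 1) {ψ : ι → MulChar k A}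
    (hψ : ∀ i, ∃ a : ℕ, ψ i ^ (ℓ ^ a) = 1) (m : ℕ) (hm : Fintype.card ι ≤ m)
    (F : ι → MvPolynomial (Fin (m + 1)) k) {L : Finset ι → Polynomial ℤ}
    (hodd : ∀ T : Finset ι, ¬ Even T.card → interProj m F T * (L T : PowerSeries ℤ) =
      (tate (Nat.card k) (m + 1 - T.card) : PowerSeries ℤ))
    (heven : ∀ T : Finset ι, T ≠ ∅ → Even T.card → interProj m F T =
      (L T : PowerSeries ℤ) * (tate (Nat.card k) (m + 1 - T.card) : PowerSeries ℤ))
    (hne : ∀ T : Finset ι, T ≠ ∅ → Even T.card →
      (L T).map (Int.castRingHom (ZMod ℓ)) ≠ 0)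
    {κ : Type} (Z : Finset κ) (α : κ → A)
    (hZ : ∀ z ∈ Z, ∃ c j : ℕ, α z ^ (ℓ ^ j) = (Nat.card k : A) ^ c) (r : κ → ℕ)
    (H : Polynomial A)
    (hH : multiProj ψ m F =
      (((∏ z ∈ Z, (1 - Polynomial.C (α z) * Polynomial.X) ^ r z) * H : Polynomial A) :
        PowerSeries A)) :
    ∑ z ∈ Z, r z ≤ (if Fintype.card ι = 1 then 1 else 0) +
      ∑ T ∈ Finset.univ.erase ∅, muL ℓ (L T) := by
  classical
  have hFp : Fact ℓ.Prime := ⟨hℓ⟩
  obtain ⟨R, _, _, ρ, hq⟩ := exists_hom (A := A) hℓ hd
  have hone : (1 - X : PowerSeries R) ≠ 0 := by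
    have := one_sub_ne (R := R) one_pos
    rwa [pow_one] at this
  have hρ : ∀ i, ∀ u : k, u ≠ 0 → ρ (ψ i u) = 1 := fun i u hu => by
    obtain ⟨a, ha⟩ := hψ i
    exact red_char' ρ ha hu
  set E := (Finset.univ : Finset ι).powerset.filter (fun T => Even T.card) with hE
  set O := (Finset.univ : Finset ι).powerset.filter (fun T => ¬ Even T.card) with hO
  have h1 : PowerSeries.map ρ (multiProj ψ m F) *
      ∏ T ∈ O, PowerSeries.map (Int.castRingHom R) (interProj m F T) =
      ∏ T ∈ E, PowerSeries.map (Int.castRingHom R) (interProj m F T) := by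
    unfold multiProj interProj
    simp only [map_prod]
    rw [Finset.prod_comm, ← Finset.prod_mul_distrib,
      Finset.prod_congr rfl (fun j _ => identityI ρ hρ (fun i => chart j (F i))), Finset.prod_comm]
  have hZ0 : PowerSeries.map (Int.castRingHom R) (interProj m F ∅) = (1 - X) ^ (m + 1) := by
    unfold interProj
    rw [map_prod, Finset.prod_congr rfl (fun j _ => red_empty hq (fun i => chart j (F i))),
      Finset.prod_const, Finset.card_range]
  have hE0 : (∅ : Finset ι) ∈ E := by
    rw [hE, Finset.mem_filter]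
    exact ⟨Finset.empty_mem_powerset _, by rw [Finset.card_empty]; exact Even.zero⟩
  -- the reductions
  have h2 : ∀ T ∈ O, PowerSeries.map (Int.castRingHom R) (interProj m F T) *
      (((L T).map (Int.castRingHom R) : Polynomial R) : PowerSeries R) =
      (1 - X) ^ (m + 1 - T.card) := by
    intro T hT
    have h3 := congrArg (PowerSeries.map (Int.castRingHom R)) (hodd T (Finset.mem_filter.1 hT).2)
    rwa [map_mul, ← Polynomial.polynomial_map_coe, tate_mod hq] at h3
  have h3 : ∀ T ∈ E.erase ∅, PowerSeries.map (Int.castRingHom R) (interProj m F T) =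
      (((L T).map (Int.castRingHom R) : Polynomial R) : PowerSeries R) *
      (1 - X) ^ (m + 1 - T.card) := by
    intro T hT
    have h4 := congrArg (PowerSeries.map (Int.castRingHom R)) (heven T (Finset.mem_erase.1 hT).1
      (Finset.mem_filter.1 (Finset.mem_erase.1 hT).2).2)
    rwa [map_mul, ← Polynomial.polynomial_map_coe, tate_mod hq] at h4
  have hLO : ∀ T ∈ O, (L T).map (Int.castRingHom R) ≠ 0 := by
    intro T hT h
    have h4 := h2 T hT
    rw [h, Polynomial.coe_zero, mul_zero] at h4
    exact pow_ne_zero _ hone h4.symm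
  have hLE : ∀ T ∈ E.erase ∅, (L T).map (Int.castRingHom R) ≠ 0 := by
    intro T hT h
    apply hne T (Finset.mem_erase.1 hT).1 (Finset.mem_filter.1 (Finset.mem_erase.1 hT).2).2
    have hφ : Function.Injective (ZMod.castHom dvd_rfl R : ZMod ℓ →+* R) := RingHom.injective _
    apply Polynomial.map_injective _ hφ
    rw [Polynomial.map_map, Polynomial.map_zero]
    have : (ZMod.castHom dvd_rfl R : ZMod ℓ →+* R).comp (Int.castRingHom (ZMod ℓ)) =
        Int.castRingHom R := RingHom.ext_int _ _
    rw [this, h]
  have h5 : (1 - X) ^ (∑ T ∈ O, (m + 1 - T.card)) * PowerSeries.map ρ (multiProj ψ m F) =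
      (1 - X) ^ (m + 1 + ∑ T ∈ E.erase ∅, (m + 1 - T.card)) *
        ((∏ T ∈ E.erase ∅, (((L T).map (Int.castRingHom R) : Polynomial R) : PowerSeries R)) *
        ∏ T ∈ O, (((L T).map (Int.castRingHom R) : Polynomial R) : PowerSeries R)) := by
    have h6 : (∏ T ∈ O, PowerSeries.map (Int.castRingHom R) (interProj m F T)) *
        ∏ T ∈ O, (((L T).map (Int.castRingHom R) : Polynomial R) : PowerSeries R) =
        (1 - X) ^ (∑ T ∈ O, (m + 1 - T.card)) := by
      rw [← Finset.prod_mul_distrib, Finset.prod_congr rfl h2, Finset.prod_pow_eq_pow_sum]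
    have h7 : ∏ T ∈ E, PowerSeries.map (Int.castRingHom R) (interProj m F T) =
        (1 - X) ^ (m + 1 + ∑ T ∈ E.erase ∅, (m + 1 - T.card)) *
        ∏ T ∈ E.erase ∅, (((L T).map (Int.castRingHom R) : Polynomial R) : PowerSeries R) := by
      rw [← Finset.mul_prod_erase E _ hE0, hZ0, Finset.prod_congr rfl h3,
        Finset.prod_mul_distrib, Finset.prod_pow_eq_pow_sum, pow_add]
      ring
    rw [← h6, mul_comm, ← mul_assoc, h1, h7]
    ring
  have h6 : ∀ z ∈ Z, ((1 - Polynomial.C (α z) * Polynomial.X) ^ r z).map ρ =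
      (1 - Polynomial.X) ^ r z := by
    intro z hz
    obtain ⟨c, j, hj⟩ := hZ z hz
    have h7 : ρ (α z) = 1 := by
      apply eq_one_of_pow (ℓ := ℓ) (m := j)
      rw [← map_pow, hj, map_pow, map_natCast, hq, one_pow]
    rw [Polynomial.map_pow, Polynomial.map_sub, Polynomial.map_one, Polynomial.map_mul,
      Polynomial.map_C, Polynomial.map_X, h7, Polynomial.C_1, one_mul]
  have hred : PowerSeries.map ρ (multiProj ψ m F) =
      (((1 - Polynomial.X) ^ (∑ z ∈ Z, r z) * H.map ρ : Polynomial R) : PowerSeries R) := by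
    rw [hH, ← Polynomial.polynomial_map_coe, Polynomial.map_mul, Polynomial.map_prod,
      Finset.prod_congr rfl h6, Finset.prod_pow_eq_pow_sum]
  have hpow : ∀ n : ℕ, IsMu ((1 - X) ^ n : PowerSeries R) n := fun n => by
    have := (IsMu.oneX (R := R) (ℓ := ℓ)).pow n
    rwa [mul_one] at this
  have hV := (hpow (m + 1 + ∑ T ∈ E.erase ∅, (m + 1 - T.card))).mul
    ((IsMu.prod (E.erase ∅) fun T hT => ⟨_, rfl, hLE T hT, muL_eq (ℓ := ℓ) (L T)⟩).mul
      (IsMu.prod O fun T hT => ⟨_, rfl, hLO T hT, muL_eq (ℓ := ℓ) (L T)⟩))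
  have h10 := order_le (ℓ := ℓ) (hpow _) hV (s := ∑ z ∈ Z, r z) (H := H.map ρ) (by
    rw [← hred, h5])
  -- the exponents
  have h11 : (m + 1 + ∑ T ∈ E.erase ∅, (m + 1 - T.card)) =
      (∑ T ∈ O, (m + 1 - T.card)) + (if Fintype.card ι = 1 then 1 else 0) := by
    obtain ⟨x⟩ := ‹Nonempty ι›
    have h12 : (Finset.univ : Finset ι) = insert x (Finset.univ.erase x) :=
      (Finset.insert_erase (Finset.mem_univ x)).symm
    have h13 := alt_card (m + 1 : ℤ) (Finset.notMem_erase x (Finset.univ : Finset ι))
    rw [← h12, even_odd] at h13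
    have h14 : ∀ T : Finset ι, ((m + 1 : ℤ) - T.card) = ((m + 1 - T.card : ℕ) : ℤ) := by
      intro T
      have : T.card ≤ Fintype.card ι := Finset.card_le_univ T
      omega
    have h15 : (Finset.univ.erase x : Finset ι) = ∅ ↔ Fintype.card ι = 1 := by
      rw [← Finset.card_eq_zero, Finset.card_erase_of_mem (Finset.mem_univ x), Finset.card_univ]
      have : 0 < Fintype.card ι := Fintype.card_pos_iff.2 ⟨x⟩
      omega
    simp only [h14, ← Nat.cast_sum, h15] at h13
    have h16 : ∑ T ∈ E, (m + 1 - T.card) = (m + 1 + ∑ T ∈ E.erase ∅, (m + 1 - T.card)) := by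
      rw [← Finset.add_sum_erase E _ hE0, Finset.card_empty, Nat.sub_zero]
    rw [← h16]
    rw [← hE, ← hO] at h13
    split_ifs at h13 ⊢ with h17 <;> omega
  have h18 : ∑ T ∈ Finset.univ.erase ∅, muL ℓ (L T) =
      ∑ T ∈ E.erase ∅, muL ℓ (L T) + ∑ T ∈ O, muL ℓ (L T) := by
    rw [← Finset.sum_union]
    · refine Finset.sum_congr ?_ fun _ _ => rfl
      ext T
      simp only [hE, hO, Finset.mem_erase, Finset.mem_univ, and_true, Finset.mem_union,
        Finset.mem_filter, Finset.mem_powerset, Finset.subset_univ, true_and]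
      constructor
      · intro h
        by_cases h' : Even T.card
        · exact Or.inl ⟨h, h'⟩
        · exact Or.inr h'
      · rintro (⟨h, -⟩ | h)
        · exact h
        · rintro rfl
          exact h (by rw [Finset.card_empty]; exact Even.zero)
    · rw [Finset.disjoint_left]
      intro T hT hT'
      exact (Finset.mem_filter.1 hT').2 (Finset.mem_filter.1 (Finset.mem_erase.1 hT).2).2
  rw [h18]
  omega

end final

end Pool.Agent.TH639.SX
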